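import Pool.Agent.BLP.StmtsA

/-!
# Squad BLP, row A_SPK: superadditivity at a point
-/

namespace Pool.Agent.BLP.H82

open MeasureTheory ProbabilityTheory Filter Topology Finset
open scoped ENNReal

noncomputable section

theorem spk (hena : EnaStmt) (hbdd : BddStmt) (hexi : ExiStmt) : SpkStmt := by
  intro b hb m k n s u t hmk hkn hsu hut
  obtain ⟨τ, ⟨hτ1, hτ2, hτ3⟩, hτE⟩ := hexi b hb m k s u hmk hsu
  obtain ⟨σ, ⟨hσ1, hσ2, hσ3⟩, hσE⟩ := hexi b hb k n u t hkn hut
  have hmn : m ≤ n := hmk.trans hkn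
  have hst : s ≤ t := hsu.trans hut
  rw [← hτE, ← hσE]
  -- the glued path
  set ρ : ℤ → ℝ := fun r => if r < k then τ r else σ r with hρ
  have hρl : ∀ r, r < k → ρ r = τ r := fun r hr => by simp [hρ, hr]
  have hρr : ∀ r, k ≤ r → ρ r = σ r := fun r hr => by simp [hρ, not_lt.mpr hr]
  have hP : Pa m s n t ρ := by
    refine ⟨?_, ?_, ?_⟩
    · rw [hρl (m - 1) (by omega)]; exact hτ1
    · rw [hρr n hkn]; exact hσ2
    · intro r hr1 hr2
      rcases lt_trichotomy r k with h | h | h
      · rw [hρl r h, hρl (r - 1) (by omega)]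
        exact hτ3 r hr1 (by omega)
      · subst h
        rw [hρr r le_rfl, hρl (r - 1) (by omega)]
        have h1 := hτ3 r hr1 le_rfl
        have h2 := hσ3 r le_rfl hr2
        rw [hτ2] at h1
        rw [hσ1] at h2
        exact h1.trans h2
      · rw [hρr r h.le, hρr (r - 1) (by omega)]
        exact hσ3 r h.le hr2
  refine le_trans (le_of_eq ?_) ((hbdd b hb m n s t hmn hst).2.1 ρ hP)
  -- the general decomposition at the level `k`: `En m n = En m (k - 1) + (level k) + En (k + 1) n`
  have key : ∀ (α : ℤ → ℝ) (a c : ℤ), a ≤ k → k ≤ c →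
      En b α a c = En b α a (k - 1) + (b k (α k) - b k (α (k - 1))) + En b α (k + 1) c := by
    intro α a c hac hkc
    have h1 := (hena b α a c).1 k (by omega) hkc
    have h2 := (hena b α a k).1 (k - 1) (by omega) (by omega)
    have h3 := (hena b α k k).2.1
    rw [show k - 1 + 1 = k by ring] at h2
    rw [h1, h2, h3]
  rw [key ρ m n hmk hkn, key τ m k hmk le_rfl, key σ k n le_rfl hkn]
  have e1 : En b τ (k + 1) k = 0 := by
    have hE : Finset.Icc (k + 1) k = ∅ := Finset.Icc_eq_empty (by omega)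
    simp [En, hE]
  have e2 : En b σ k (k - 1) = 0 := by
    have hE : Finset.Icc k (k - 1) = ∅ := Finset.Icc_eq_empty (by omega)
    simp [En, hE]
  have e3 : En b ρ m (k - 1) = En b τ m (k - 1) := by
    unfold En
    refine Finset.sum_congr rfl ?_
    intro r hr
    rw [Finset.mem_Icc] at hr
    rw [hρl r (by omega), hρl (r - 1) (by omega)]
  have e4 : En b ρ (k + 1) n = En b σ (k + 1) n := by
    unfold En
    refine Finset.sum_congr rfl ?_
    intro r hr
    rw [Finset.mem_Icc] at hr
    rw [hρr r (by omega), hρr (r - 1) (by omega)]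
  rw [e1, e2, e3, e4, hρr k le_rfl, hρl (k - 1) (by omega), hτ2, hσ1]
  ring

end

end Pool.Agent.BLP.H82
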