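import Pool.Agent.BLP.StmtsK

/-! Squad BLP, row K_ZER: the environment at rational times is nice, almost surely. -/

namespace Pool.Agent.BLP.H82

open MeasureTheory ProbabilityTheory Filter Topology Finset
open scoped ENNReal

theorem zer : ZerStmt := by
  intro hX Ω _ P B hB
  have h0 : ∀ r : ℤ, ∀ᵐ ω ∂P, B ω r 0 = 0 := by
    intro r
    have h1 : MemLp (fun ω => B ω r 0) 2 P := (hB.gauss.hasGaussianLaw_eval (r, (0 : ℝ))).memLp_two
    have h2 := hB.cov r 0 r 0
    simp only [if_true, abs_zero, add_zero, sub_zero, zero_div] at h2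
    have h3 : Integrable (fun ω => B ω r 0 * B ω r 0) P := by
      have := h1.integrable_sq
      simpa [sq] using this
    rw [integral_eq_zero_iff_of_nonneg (fun ω => mul_self_nonneg _) h3] at h2
    filter_upwards [h2] with ω hω
    exact mul_self_eq_zero.1 hω
  filter_upwards [hB.cont, ae_all_iff.2 h0] with ω hc hz
  have hn : Nice (fun i : ℤ × ℚ => B ω i.1 i.2) := ⟨B ω, hc, hz, fun r q => rfl⟩
  exact ⟨hc, hz, hn, hX.2.1 _ (B ω) hc hz fun r q => rfl⟩

end Pool.Agent.BLP.H82
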