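import Pool.Agent.BLP.StmtsV

/-!
# Squad BLP, row V_LPP: the last-passage values have the abstract properties `Lpp`
-/

namespace Pool.Agent.BLP.V.H82

open MeasureTheory ProbabilityTheory Filter Topology Pool.Agent.BLP
open scoped ENNReal

noncomputable section

theorem lpp (hbel : BelStmt) (hqua : QuaStmt) : LppStmt := by
  intro b n hb
  refine ⟨?_, ?_, ?_⟩
  · intro e e' k s t hk he hs ht
    have h := hqua b hb (k : ℤ) (k : ℤ) (n : ℤ) (n : ℤ) s t e e' le_rfl (by exact_mod_cast hk)
      le_rfl hs ht he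
    linarith
  · intro e e' k t hk he ht
    have h := hqua b hb (k : ℤ) ((k : ℤ) + 1) (n : ℤ) (n : ℤ) t t e e' (by omega)
      (by exact_mod_cast hk) le_rfl le_rfl ht he
    simp only [Nat.cast_add, Nat.cast_one]
    linarith
  · refine ⟨fun k => b (k : ℤ), ?_⟩
    intro e k t hk ht
    obtain ⟨h1, h2, -, -⟩ := hbel b hb (k : ℤ) (n : ℤ) t e (by exact_mod_cast hk) ht
    simp only [Nat.cast_add, Nat.cast_one]
    exact ⟨h1, h2⟩

end

end Pool.Agent.BLP.V.H82
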