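import Pool.Agent.BLP.StmtsV

/-!
# Squad BLP, row V_STV: stationarity
-/

namespace Pool.Agent.BLP.V.H82

open MeasureTheory ProbabilityTheory Filter Topology Pool.Agent.BLP
open scoped ENNReal

noncomputable section

theorem stv : StvStmt := by
  intro X _ μ B hS E k m hE
  obtain ⟨T, hT, hT1⟩ := hS.lv m
  obtain ⟨T', hT', hT1'⟩ := hS.tr (k : ℚ)
  have h2 : ∀ᵐ x ∂μ, B (T' (T x)) = shT ((k : ℚ) : ℝ) (B (T x)) :=
    hT.quasiMeasurePreserving.ae hT1'
  have h3 : ∀ᵐ x ∂μ, B (T' (T x)) = shT (k : ℝ) (shL m (B x)) := by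
    filter_upwards [hT1, h2] with x hx1 hx2
    rw [hx2, hx1, Rat.cast_intCast]
  have h4 : μ {x | E (shT (k : ℝ) (shL m (B x)))} = μ ((T' ∘ T) ⁻¹' {x | E (B x)}) := by
    refine measure_congr ?_
    filter_upwards [h3] with x hx
    apply propext
    change E (shT (k : ℝ) (shL m (B x))) ↔ E (B (T' (T x)))
    rw [hx]
  rw [h4]
  exact (hT'.comp hT).measure_preimage hE.nullMeasurableSet

end

end Pool.Agent.BLP.V.H82
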